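import Pool.Agent.H37.Coarse

set_option autoImplicit false

namespace Pool.Agent.Results.MP_4c1ea5_lc.Closed

open Pool.Agent.H37

/-- A Turing invariant family generating a nonempty, proper, closed subspace of the space of
coarse similarity classes; no continuum hypothesis is used. -/
theorem result : ∃ U : Set (Set ℕ),
    (∀ A ∈ U, ∀ B, TuringEquivalent (chi B) (chi A) → B ∈ U) ∧ U.Nonempty ∧
    (∃ B, ∀ A ∈ U, ¬ Coarse A B) ∧
    ∀ B, (∀ ε > (0 : ℝ), ∃ A ∈ U, delta A B < ε) → ∃ A ∈ U, Coarse A B :=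
  CoarseCl.main

end Pool.Agent.Results.MP_4c1ea5_lc.Closed
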